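import Mathlib

set_option autoImplicit false

/-! Definitions for the quaternionic extension problem (nonstandard involution). -/

namespace Pool.Agent.Lib.H75.QuatDefs

open MulOpposite Quaternion Matrix

/-- A nonstandard involution of the real quaternions: a real-linear map `φ` with
`φ (x * y) = φ y * φ x` and `φ (φ x) = x` for all `x, y`, different from quaternion conjugation. -/
structure IsNonstandardInvolution (φ : ℍ[ℝ] →ₗ[ℝ] ℍ[ℝ]) : Prop where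
  anti : ∀ x y, φ (x * y) = φ y * φ x
  invol : ∀ x, φ (φ x) = x
  ne_conj : ∃ x, φ x ≠ star x

/-- The matrix `X_φ`: the transpose of `X` with `φ` applied to every entry. -/
noncomputable def phiT {n : ℕ} (φ : ℍ[ℝ] →ₗ[ℝ] ℍ[ℝ]) (X : Matrix (Fin n) (Fin n) ℍ[ℝ]) :
    Matrix (Fin n) (Fin n) ℍ[ℝ] := fun i j => φ (X j i)

/-- The value `y_φ G x`, i.e. `∑ i, φ (y i) * (G x) i`, for column vectors `x`, `y`. -/
noncomputable def form {n : ℕ} (φ : ℍ[ℝ] →ₗ[ℝ] ℍ[ℝ]) (G : Matrix (Fin n) (Fin n) ℍ[ℝ]) (x y : Fin n → ℍ[ℝ]) :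
    ℍ[ℝ] := ∑ i, φ (y i) * (G *ᵥ x) i

/-- Right quaternionic subspaces of the space of column vectors (`op a • x` is the vector `x a`). -/
abbrev Subspace (n : ℕ) : Type := Submodule ℍ[ℝ]ᵐᵒᵖ (Fin n → ℍ[ℝ])

/-- `M` is `A`-invariant. -/
def Invariant {n : ℕ} (A : Matrix (Fin n) (Fin n) ℍ[ℝ]) (M : Subspace n) : Prop :=
  ∀ x ∈ M, A *ᵥ x ∈ M

/-- `M` is `(G, φ)`-neutral: `y_φ G x = 0` for all `x, y ∈ M`. -/
def Neutral {n : ℕ} (φ : ℍ[ℝ] →ₗ[ℝ] ℍ[ℝ]) (G : Matrix (Fin n) (Fin n) ℍ[ℝ]) (M : Subspace n) :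
    Prop := ∀ x ∈ M, ∀ y ∈ M, form φ G x y = 0

/-- `M` is `(G, φ)`-nonnegative: `β⁻¹ x_φ G x` is a real number `≥ 0` for all `x ∈ M`. -/
def Nonneg {n : ℕ} (φ : ℍ[ℝ] →ₗ[ℝ] ℍ[ℝ]) (β : ℍ[ℝ]) (G : Matrix (Fin n) (Fin n) ℍ[ℝ])
    (M : Subspace n) : Prop := ∀ x ∈ M, ∃ r : ℝ, 0 ≤ r ∧ β⁻¹ * form φ G x x = (r : ℍ[ℝ])

/-- `M` is `(G, φ)`-nonpositive: `β⁻¹ x_φ G x` is a real number `≤ 0` for all `x ∈ M`. -/
def Nonpos {n : ℕ} (φ : ℍ[ℝ] →ₗ[ℝ] ℍ[ℝ]) (β : ℍ[ℝ]) (G : Matrix (Fin n) (Fin n) ℍ[ℝ])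
    (M : Subspace n) : Prop := ∀ x ∈ M, ∃ r : ℝ, r ≤ 0 ∧ β⁻¹ * form φ G x x = (r : ℍ[ℝ])

/-- `M` is maximal `(G, φ)`-nonnegative: nonnegative and not properly contained in another
nonnegative subspace. -/
def MaxNonneg {n : ℕ} (φ : ℍ[ℝ] →ₗ[ℝ] ℍ[ℝ]) (β : ℍ[ℝ]) (G : Matrix (Fin n) (Fin n) ℍ[ℝ])
    (M : Subspace n) : Prop :=
  Nonneg φ β G M ∧ ∀ M' : Subspace n, Nonneg φ β G M' → M ≤ M' → M' = M

/-- `M` is maximal `(G, φ)`-nonpositive. -/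
def MaxNonpos {n : ℕ} (φ : ℍ[ℝ] →ₗ[ℝ] ℍ[ℝ]) (β : ℍ[ℝ]) (G : Matrix (Fin n) (Fin n) ℍ[ℝ])
    (M : Subspace n) : Prop :=
  Nonpos φ β G M ∧ ∀ M' : Subspace n, Nonpos φ β G M' → M ≤ M' → M' = M

/-- The eigenvalues of the restriction of `A` to `M`: the quaternions `l` with `A x = x l` for some
nonzero `x ∈ M`. For `M = ⊤` these are the eigenvalues of `A`. -/
def eigs {n : ℕ} (A : Matrix (Fin n) (Fin n) ℍ[ℝ]) (M : Subspace n) : Set ℍ[ℝ] :=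
  {l | ∃ x ∈ M, x ≠ 0 ∧ A *ᵥ x = fun i => x i * l}

/-- The first three properties of a c-set, for a set `S` of eigenvalues of `A`: all elements have
nonzero real part, `S` is closed under quaternion similarity, and `l ∈ S` implies `-l ∉ S`. -/
structure PreCSet {n : ℕ} (A : Matrix (Fin n) (Fin n) ℍ[ℝ]) (S : Set ℍ[ℝ]) : Prop where
  sub : S ⊆ eigs A ⊤
  re_ne : ∀ l ∈ S, l.re ≠ 0
  similar : ∀ l ∈ S, ∀ a : ℍ[ℝ], a ≠ 0 → a⁻¹ * l * a ∈ S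
  neg_notMem : ∀ l ∈ S, -l ∉ S

/-- A c-set of `A`: inclusion-maximal among the sets of eigenvalues of `A` with the three
properties of `PreCSet`. -/
def IsCSet {n : ℕ} (A : Matrix (Fin n) (Fin n) ℍ[ℝ]) (S : Set ℍ[ℝ]) : Prop :=
  PreCSet A S ∧ ∀ S' : Set ℍ[ℝ], PreCSet A S' → S ⊆ S' → S' = S

end Pool.Agent.Lib.H75.QuatDefs
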