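import Mathlib

set_option autoImplicit false
set_option linter.unusedSectionVars false

namespace Pool.Agent.Lib.H75.QuatExt

open MulOpposite Quaternion

/-! Right quaternionic vector spaces with a hermitian form, seen through its real part. -/

section Basic

variable {V : Type*} [AddCommGroup V] [Module ℝ V] [Module ℍ[ℝ]ᵐᵒᵖ V] [IsScalarTower ℝ ℍ[ℝ]ᵐᵒᵖ V]

/-- right multiplication by a real quaternion is real scalar multiplication -/
lemma op_coe_smul (r : ℝ) (x : V) : (op (r : ℍ[ℝ])) • x = r • x := by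
  have : op (r : ℍ[ℝ]) = r • (1 : ℍ[ℝ]ᵐᵒᵖ) := by
    rw [← op_one, ← op_smul]
    congr 1
    ext <;> simp
  rw [this, smul_assoc, one_smul]

lemma real_smul_comm (r : ℝ) (a : ℍ[ℝ]) (x : V) : (op a) • (r • x) = r • ((op a) • x) := by
  rw [← op_coe_smul r x, ← op_coe_smul r, smul_smul, smul_smul]
  congr 1
  rw [← op_mul, ← op_mul]
  congr 1
  ext <;> simp [mul_comm]

lemma map_real_smul (A : V →ₗ[ℍ[ℝ]ᵐᵒᵖ] V) (r : ℝ) (x : V) : A (r • x) = r • A x := by
  rw [← op_coe_smul r x, map_smul, op_coe_smul]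

/-- the quadratic operator `A² - 2 Re(l) A + |l|²` -/
noncomputable def P (A : V →ₗ[ℍ[ℝ]ᵐᵒᵖ] V) (l : ℍ[ℝ]) (x : V) : V :=
  A (A x) - (2 * l.re) • A x + (normSq l) • x

lemma P_add (A : V →ₗ[ℍ[ℝ]ᵐᵒᵖ] V) (l : ℍ[ℝ]) (x y : V) : P A l (x + y) = P A l x + P A l y := by
  simp only [P, map_add, smul_add]
  abel

lemma P_smul (A : V →ₗ[ℍ[ℝ]ᵐᵒᵖ] V) (l : ℍ[ℝ]) (r : ℝ) (x : V) : P A l (r • x) = r • P A l x := by
  simp only [P, map_real_smul, smul_add, smul_sub, smul_comm r]

/-- factorisation of the quadratic operator -/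
lemma P_factor (A : V →ₗ[ℍ[ℝ]ᵐᵒᵖ] V) (l : ℍ[ℝ]) (y : V) :
    A (A y - op (star l) • y) - op l • (A y - op (star l) • y) = P A l y := by
  have h1 : (op l) • ((op (star l)) • y) = normSq l • y := by
    rw [smul_smul, ← op_mul, star_mul_self, op_coe_smul]
  have h2 : (op (star l)) • (A y) + (op l) • (A y) = (2 * l.re) • A y := by
    rw [← add_smul, ← op_add, ← op_coe_smul]
    congr 2
    ext <;> simp
    ring
  rw [map_sub, map_smul, smul_sub, h1, P, ← h2]
  abel

/-- the quadratic operator kills eigenvectors, modulo an invariant subspace -/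
lemma P_eig (A : V →ₗ[ℍ[ℝ]ᵐᵒᵖ] V) (N : Submodule ℍ[ℝ]ᵐᵒᵖ V) (hN : ∀ x ∈ N, A x ∈ N) (l : ℍ[ℝ])
    (y : V) (hy : A y - op l • y ∈ N) : P A l y ∈ N := by
  have h1 : (op (star l)) • ((op l) • y) = normSq l • y := by
    rw [smul_smul, ← op_mul, self_mul_star, op_coe_smul]
  have h2 : (op (star l)) • (A y) + (op l) • (A y) = (2 * l.re) • A y := by
    rw [← add_smul, ← op_add, ← op_coe_smul]
    congr 2
    ext <;> simp
    ring
  have : P A l y = A (A y - op l • y) - op (star l) • (A y - op l • y) := by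
    rw [map_sub, map_smul, smul_sub, h1, P, ← h2]
    abel
  rw [this]
  exact N.sub_mem (hN _ hy) (N.smul_mem _ hy)

/-- a quaternion with prescribed components -/
lemma exists_comp (a b c d : ℝ) : ∃ x : ℍ[ℝ], x.re = a ∧ x.imI = b ∧ x.imJ = c ∧ x.imK = d :=
  ⟨⟨a, b, c, d⟩, rfl, rfl, rfl, rfl⟩

/-- every quaternion is similar to its conjugate -/
lemma exists_conj (l : ℍ[ℝ]) : ∃ a : ℍ[ℝ], a ≠ 0 ∧ star l * a = a * l := by
  by_cases h : l.imI = 0 ∧ l.imJ = 0
  · obtain ⟨x, h1, h2, h3, h4⟩ := exists_comp 0 1 0 0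
    refine ⟨x, ?_, ?_⟩
    · rintro rfl
      simp at h2
    · ext <;> simp [h.1, h.2, h1, h2, h3, h4]
  · obtain ⟨x, h1, h2, h3, h4⟩ := exists_comp 0 (-l.imJ) l.imI 0
    refine ⟨x, ?_, ?_⟩
    · rintro rfl
      simp at h2 h3
      exact h ⟨h3.symm, h2⟩
    · ext <;> simp [h1, h2, h3, h4] <;> ring

/-- an eigenvector modulo `N` from the kernel of the quadratic operator modulo `N` -/
lemma eig_of_P (A : V →ₗ[ℍ[ℝ]ᵐᵒᵖ] V) (N K : Submodule ℍ[ℝ]ᵐᵒᵖ V)
    (hK : ∀ x ∈ K, A x ∈ K) (l : ℍ[ℝ]) (y : V) (hyK : y ∈ K) (hyN : y ∉ N) (hy : P A l y ∈ N) :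
    ∃ z ∈ K, z ∉ N ∧ A z - op l • z ∈ N := by
  by_cases h : A y - op (star l) • y ∈ N
  · obtain ⟨a, ha, hal⟩ := exists_conj l
    refine ⟨op a • y, K.smul_mem _ hyK, ?_, ?_⟩
    · intro hmem
      apply hyN
      have := N.smul_mem (op a⁻¹) hmem
      rwa [smul_smul, ← op_mul, mul_inv_cancel₀ ha, op_one, one_smul] at this
    · have e : A (op a • y) - op l • (op a • y) = op a • (A y - op (star l) • y) := by
        rw [map_smul, smul_sub, smul_smul, smul_smul, ← op_mul, ← op_mul, hal]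
      rw [e]
      exact N.smul_mem _ h
  · exact ⟨_, K.sub_mem (hK _ hyK) (K.smul_mem _ hyK), h, by rw [P_factor]; exact hy⟩

/-- existence of eigenvectors -/
lemma exists_eig {W : Type*} [AddCommGroup W] [Module ℝ W] [Module ℍ[ℝ]ᵐᵒᵖ W]
    [IsScalarTower ℝ ℍ[ℝ]ᵐᵒᵖ W] [FiniteDimensional ℝ W] [Nontrivial W]
    (T : W →ₗ[ℍ[ℝ]ᵐᵒᵖ] W) : ∃ (x : W) (l : ℍ[ℝ]), x ≠ 0 ∧ T x = op l • x := by
  let f : ℂ →+* ℍ[ℝ]ᵐᵒᵖ := (ofComplex : ℂ →ₐ[ℝ] ℍ[ℝ]).toRingHom.toOpposite (by
    intro x y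
    exact (Commute.all x y).map (ofComplex : ℂ →ₐ[ℝ] ℍ[ℝ]))
  have hf : ∀ c : ℂ, f c = op (c : ℍ[ℝ]) := fun c => rfl
  let _ : Module ℂ W := Module.compHom W f
  have hsm : ∀ (c : ℂ) (x : W), c • x = op (c : ℍ[ℝ]) • x := fun c x => rfl
  have : IsScalarTower ℝ ℂ W := by
    constructor
    intro r c x
    rw [hsm, hsm, ← real_smul_comm, ← op_coe_smul r x, smul_smul, ← op_mul]
    congr 2
    ext <;> simp
  have : FiniteDimensional ℂ W := Module.Finite.of_restrictScalars_finite ℝ ℂ W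
  let T' : Module.End ℂ W :=
    { toFun := T
      map_add' := map_add T
      map_smul' := fun c x => T.map_smul (f c) x }
  obtain ⟨c, hc⟩ := Module.End.exists_eigenvalue T'
  obtain ⟨x, hx⟩ := hc.exists_hasEigenvector
  exact ⟨x, (c : ℍ[ℝ]), hx.2, hx.apply_eq_smul⟩

end Basic

/-! ### The real form and a skew-adjoint operator -/

/-- A real symmetric form `B` on a right quaternionic space for which right multiplication by `a` has
adjoint right multiplication by `star a` (the real part of a hermitian form), and a linear map `A`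
skew-adjoint for it. -/
structure SkewData (V : Type*) [AddCommGroup V] [Module ℝ V] [Module ℍ[ℝ]ᵐᵒᵖ V] where
  /-- the form -/
  B : LinearMap.BilinForm ℝ V
  symm : ∀ x y, B x y = B y x
  comp : ∀ (a : ℍ[ℝ]) (x y : V), B (op a • x) y = B x (op (star a) • y)
  /-- the operator -/
  A : V →ₗ[ℍ[ℝ]ᵐᵒᵖ] V
  skew : ∀ x y, B (A x) y = - B x (A y)

namespace SkewData

variable {V : Type*} [AddCommGroup V] [Module ℝ V] [Module ℍ[ℝ]ᵐᵒᵖ V] [IsScalarTower ℝ ℍ[ℝ]ᵐᵒᵖ V]
  (D : SkewData V)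

lemma B_smul_self (a : ℍ[ℝ]) (x : V) : D.B (op a • x) (op a • x) = normSq a * D.B x x := by
  rw [D.comp, smul_smul, ← op_mul, self_mul_star, op_coe_smul, map_smul, smul_eq_mul]

lemma B_P (l : ℍ[ℝ]) (x y : V) : D.B (P D.A l x) y = D.B x (P D.A (-l) y) := by
  simp only [P, map_add, map_sub, LinearMap.add_apply, LinearMap.sub_apply, map_smul,
    LinearMap.smul_apply, D.skew, re_neg, normSq_neg, smul_eq_mul]
  ring

lemma B_eig_zero {l : ℍ[ℝ]} (hl : l.re ≠ 0) {x : V} (hx : D.A x = op l • x) : D.B x x = 0 := by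
  have h1 := D.skew x x
  rw [hx, D.comp] at h1
  have h2 : D.B x (op (star l) • x) + D.B x (op l • x) = 2 * l.re * D.B x x := by
    rw [← map_add, ← add_smul, ← op_add]
    have : (star l + l : ℍ[ℝ]) = ((2 * l.re : ℝ) : ℍ[ℝ]) := by
      ext <;> simp
      ring
    rw [this, op_coe_smul, map_smul, smul_eq_mul]
  have h3 : 2 * l.re * D.B x x = 0 := by rw [← h2, h1]; ring
  have h4 : 2 * l.re ≠ 0 := by
    intro h; apply hl; linarith
  exact (mul_eq_zero.1 h3).resolve_left h4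

/-- orthogonal complement -/
def perp (M : Submodule ℍ[ℝ]ᵐᵒᵖ V) : Submodule ℍ[ℝ]ᵐᵒᵖ V where
  carrier := {x | ∀ d ∈ M, D.B d x = 0}
  add_mem' := by
    intro x y hx hy d hd
    rw [map_add, hx d hd, hy d hd, add_zero]
  zero_mem' := by
    intro d _
    exact map_zero _
  smul_mem' := by
    intro a x hx d hd
    have := D.comp (star a.unop) d x
    rw [star_star, op_unop] at this
    rw [← this]
    exact hx _ (M.smul_mem _ hd)

lemma mem_perp {M : Submodule ℍ[ℝ]ᵐᵒᵖ V} {x : V} : x ∈ D.perp M ↔ ∀ d ∈ M, D.B d x = 0 := Iff.rfl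

lemma perp_inv {M : Submodule ℍ[ℝ]ᵐᵒᵖ V} (hM : ∀ x ∈ M, D.A x ∈ M) :
    ∀ x ∈ D.perp M, D.A x ∈ D.perp M := by
  intro x hx d hd
  have := D.skew d x
  rw [hx _ (hM d hd)] at this
  linarith

lemma isRefl : D.B.IsRefl := by
  intro x y h
  rw [D.symm, h]

variable [FiniteDimensional ℝ V]

lemma decomp (M : Submodule ℍ[ℝ]ᵐᵒᵖ V) (hM : ∀ x ∈ M, x ∈ D.perp M → x = 0) (x : V) :
    ∃ d ∈ M, ∃ e ∈ D.perp M, x = d + e := by
  have h1 : Disjoint (M.restrictScalars ℝ) (D.B.orthogonal (M.restrictScalars ℝ)) := by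
    rw [Submodule.disjoint_def]
    intro y hy1 hy2
    exact hM y hy1 hy2
  have h2 := (LinearMap.BilinForm.isCompl_orthogonal_iff_disjoint D.isRefl).2 h1
  obtain ⟨d, hd, e, he, hde⟩ := Submodule.mem_sup.1
    (show x ∈ (M.restrictScalars ℝ) ⊔ D.B.orthogonal (M.restrictScalars ℝ) by
      rw [h2.sup_eq_top]; trivial)
  exact ⟨d, hd, e, he, hde.symm⟩

/-- the quadratic operator as a real linear map -/
noncomputable def Plin (l : ℍ[ℝ]) : V →ₗ[ℝ] V where
  toFun := P D.A l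
  map_add' := P_add D.A l
  map_smul' := P_smul D.A l

lemma P_mem {K : Submodule ℍ[ℝ]ᵐᵒᵖ V} (hK : ∀ x ∈ K, D.A x ∈ K) (l : ℍ[ℝ]) {x : V} (hx : x ∈ K) :
    P D.A l x ∈ K := by
  unfold P
  rw [← op_coe_smul, ← op_coe_smul]
  exact K.add_mem (K.sub_mem (hK _ (hK _ hx)) (K.smul_mem _ (hK _ hx))) (K.smul_mem _ hx)

lemma P_surj {K : Submodule ℍ[ℝ]ᵐᵒᵖ V} (hK : ∀ x ∈ K, D.A x ∈ K) (l : ℍ[ℝ])
    (hinj : ∀ x ∈ K, P D.A l x = 0 → x = 0) : ∀ y ∈ K, ∃ x ∈ K, P D.A l x = y := by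
  intro y hy
  let f : (K.restrictScalars ℝ) →ₗ[ℝ] (K.restrictScalars ℝ) :=
    (D.Plin l).restrict (fun x hx => D.P_mem hK l hx)
  have hf : Function.Injective f := by
    rw [← LinearMap.ker_eq_bot, LinearMap.ker_eq_bot']
    intro x hx
    apply Subtype.ext
    exact hinj x.1 x.2 (congrArg Subtype.val hx)
  obtain ⟨x, hx⟩ := (LinearMap.injective_iff_surjective.1 hf) ⟨y, hy⟩
  exact ⟨x.1, x.2, congrArg Subtype.val hx⟩

/-- orthogonal diagonalisation when the eigenvectors are not neutral -/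
lemma split (E : Set ℍ[ℝ]) : ∀ (n : ℕ) (K : Submodule ℍ[ℝ]ᵐᵒᵖ V),
    Module.finrank ℝ (K.restrictScalars ℝ) = n → (∀ x ∈ K, D.A x ∈ K) →
    (∀ x ∈ K, (∀ y ∈ K, D.B x y = 0) → x = 0) →
    (∀ x ∈ K, x ≠ 0 → ∀ l ∈ E, D.A x = op l • x → D.B x x ≠ 0) →
    (∀ x ∈ K, x ≠ 0 → ∀ l : ℍ[ℝ], D.A x = op l • x → l ∈ E ∨ -l ∈ E) →
    ∃ Pp Q : Submodule ℍ[ℝ]ᵐᵒᵖ V, Pp ≤ K ∧ Q ≤ K ∧ (∀ x ∈ Pp, D.A x ∈ Pp) ∧ (∀ x ∈ Q, D.A x ∈ Q) ∧
      K ≤ Pp ⊔ Q ∧ (∀ p ∈ Pp, ∀ q ∈ Q, D.B p q = 0) ∧ (∀ p ∈ Pp, p ≠ 0 → 0 < D.B p p) ∧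
      (∀ q ∈ Q, q ≠ 0 → D.B q q < 0) := by
  intro n
  induction n using Nat.strong_induction_on with
  | _ n ih =>
  intro K hn hK hnd heig hE
  by_cases hbot : K = ⊥
  · subst hbot
    refine ⟨⊥, ⊥, le_rfl, le_rfl, hK, hK, bot_le, ?_, ?_, ?_⟩
    · intro p hp q _
      rw [(Submodule.mem_bot _).1 hp]
      simp
    · intro p hp hp0
      exact absurd ((Submodule.mem_bot _).1 hp) hp0
    · intro p hp hp0
      exact absurd ((Submodule.mem_bot _).1 hp) hp0
  -- an eigenvector with eigenvalue in `E`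
  have hex : ∃ x ∈ K, x ≠ 0 ∧ ∃ l ∈ E, D.A x = op l • x := by
    have : Nontrivial K := (Submodule.nontrivial_iff_ne_bot).2 hbot
    have : FiniteDimensional ℝ K :=
      inferInstanceAs (FiniteDimensional ℝ (K.restrictScalars ℝ))
    obtain ⟨x, l, hx0, hxl⟩ := exists_eig (W := K) (D.A.restrict hK)
    have hx0' : (x : V) ≠ 0 := fun h => hx0 (Subtype.ext h)
    have hxl' : D.A x.1 = op l • x.1 := congrArg Subtype.val hxl
    rcases hE x.1 x.2 hx0' l hxl' with h | h
    · exact ⟨x.1, x.2, hx0', l, h, hxl'⟩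
    · -- duality
      have hP : P D.A l x.1 = 0 := by
        have := P_eig D.A ⊥ (by intro y hy; rw [(Submodule.mem_bot _).1 hy]; simp) l x.1
          (by rw [hxl', sub_self]; exact Submodule.zero_mem _)
        exact (Submodule.mem_bot _).1 this
      by_cases hinj : ∀ y ∈ K, P D.A (-l) y = 0 → y = 0
      · exfalso
        apply hx0'
        apply hnd x.1 x.2
        intro y hy
        obtain ⟨z, hz, rfl⟩ := D.P_surj hK (-l) hinj y hy
        rw [← D.B_P, hP]
        simp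
      · push Not at hinj
        obtain ⟨y, hy, hPy, hy0⟩ := hinj
        obtain ⟨z, hz, hz0, hzl⟩ := eig_of_P D.A ⊥ K hK (-l) y hy
          (fun h => hy0 ((Submodule.mem_bot _).1 h)) (by rw [hPy]; exact Submodule.zero_mem _)
        refine ⟨z, hz, fun h => hz0 (by rw [h]; exact Submodule.zero_mem _), -l, h, ?_⟩
        exact sub_eq_zero.1 ((Submodule.mem_bot _).1 hzl)
  obtain ⟨x, hxK, hx0, l, hlE, hxl⟩ := hex
  have hBx := heig x hxK hx0 l hlE hxl
  -- the line spanned by `x` and its complement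
  let X : Submodule ℍ[ℝ]ᵐᵒᵖ V := Submodule.span _ {x}
  have hXmem : ∀ y, y ∈ X ↔ ∃ a : ℍ[ℝ], op a • x = y := by
    intro y
    rw [Submodule.mem_span_singleton]
    constructor
    · rintro ⟨a, rfl⟩
      exact ⟨a.unop, by rw [op_unop]⟩
    · rintro ⟨a, rfl⟩
      exact ⟨op a, rfl⟩
  have hXK : X ≤ K := by
    intro y hy
    obtain ⟨a, rfl⟩ := (hXmem y).1 hy
    exact K.smul_mem _ hxK
  have hXinv : ∀ y ∈ X, D.A y ∈ X := by
    intro y hy
    obtain ⟨a, rfl⟩ := (hXmem y).1 hy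
    rw [map_smul, hxl]
    exact X.smul_mem _ (X.smul_mem _ (Submodule.mem_span_singleton_self x))
  have hXself : ∀ y ∈ X, ∃ r : ℝ, 0 ≤ r ∧ (y ≠ 0 → 0 < r) ∧ D.B y y = r * D.B x x := by
    intro y hy
    obtain ⟨a, rfl⟩ := (hXmem y).1 hy
    refine ⟨normSq a, normSq_nonneg, ?_, D.B_smul_self a x⟩
    intro h
    have ha : a ≠ 0 := by
      rintro rfl
      simp at h
    exact lt_of_le_of_ne normSq_nonneg (Ne.symm (mt normSq_eq_zero.1 ha))
  have hXdisj : ∀ y ∈ X, y ∈ D.perp X → y = 0 := by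
    intro y hy hy'
    by_contra hne
    obtain ⟨r, _, hr, hr'⟩ := hXself y hy
    rw [hy' y hy] at hr'
    have := hr hne
    rcases mul_eq_zero.1 hr'.symm with h | h
    · exact this.ne' h
    · exact hBx h
  let K' : Submodule ℍ[ℝ]ᵐᵒᵖ V := K ⊓ D.perp X
  have hK'K : K' ≤ K := inf_le_left
  have hK'inv : ∀ y ∈ K', D.A y ∈ K' := fun y hy =>
    ⟨hK y hy.1, D.perp_inv hXinv y hy.2⟩
  have hKdec : ∀ y ∈ K, ∃ d ∈ X, ∃ e ∈ K', y = d + e := by
    intro y hy
    obtain ⟨d, hd, e, he, hde⟩ := D.decomp X hXdisj y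
    refine ⟨d, hd, e, ⟨?_, he⟩, hde⟩
    have : e = y - d := by rw [hde]; abel
    rw [this]
    exact K.sub_mem hy (hXK hd)
  have hxK' : x ∉ K' := by
    intro h
    exact hx0 (hXdisj x (Submodule.mem_span_singleton_self x) h.2)
  have hlt : Module.finrank ℝ (K'.restrictScalars ℝ) < n := by
    rw [← hn]
    apply Submodule.finrank_lt_finrank_of_lt
    rw [SetLike.lt_iff_le_and_exists]
    exact ⟨hK'K, x, hxK, hxK'⟩
  have hnd' : ∀ y ∈ K', (∀ z ∈ K', D.B y z = 0) → y = 0 := by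
    intro y hy h
    apply hnd y hy.1
    intro z hz
    obtain ⟨d, hd, e, he, rfl⟩ := hKdec z hz
    rw [map_add, h e he, D.symm y d, hy.2 d hd, add_zero]
  obtain ⟨P', Q', hP1, hQ1, hP2, hQ2, hsup, horth, hpos, hneg⟩ := ih _ hlt K' rfl hK'inv hnd'
    (fun y hy => heig y hy.1) (fun y hy => hE y hy.1)
  have hle : K ≤ X ⊔ (P' ⊔ Q') := by
    intro y hy
    obtain ⟨d, hd, e, he, rfl⟩ := hKdec y hy
    exact Submodule.add_mem_sup hd (hsup he)
  -- definiteness of a sum
  rcases lt_or_gt_of_ne hBx with hlt0 | hgt0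
  · refine ⟨P', X ⊔ Q', hP1.trans hK'K, sup_le hXK (hQ1.trans hK'K), hP2, ?_, ?_, ?_, hpos, ?_⟩
    · intro y hy
      obtain ⟨d, hd, e, he, rfl⟩ := Submodule.mem_sup.1 hy
      rw [map_add]
      exact Submodule.add_mem_sup (hXinv d hd) (hQ2 e he)
    · calc K ≤ X ⊔ (P' ⊔ Q') := hle
        _ = P' ⊔ (X ⊔ Q') := by rw [sup_left_comm]
    · intro p hp q hq
      obtain ⟨d, hd, e, he, rfl⟩ := Submodule.mem_sup.1 hq
      rw [map_add, horth p hp e he, D.symm p d, (hP1 hp).2 d hd, add_zero]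
    · intro q hq hq0
      obtain ⟨d, hd, e, he, rfl⟩ := Submodule.mem_sup.1 hq
      have h1 : D.B d e = 0 := (hQ1 he).2 d hd
      have h2 : D.B e d = 0 := by rw [D.symm, h1]
      have h3 : D.B (d + e) (d + e) = D.B d d + D.B e e := by
        simp only [map_add, LinearMap.add_apply, h1, h2]
        ring
      obtain ⟨r, hr0, hr1, hr2⟩ := hXself d hd
      rw [h3, hr2]
      by_cases hd0 : d = 0
      · have he0 : e ≠ 0 := by
          rintro rfl
          exact hq0 (by rw [hd0, add_zero])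
        nlinarith [hneg e he he0]
      · by_cases he0 : e = 0
        · rw [he0]
          simp only [map_zero, add_zero]
          nlinarith [hr1 hd0]
        · nlinarith [hneg e he he0, hr1 hd0]
  · refine ⟨X ⊔ P', Q', sup_le hXK (hP1.trans hK'K), hQ1.trans hK'K, ?_, hQ2, ?_, ?_, ?_, hneg⟩
    · intro y hy
      obtain ⟨d, hd, e, he, rfl⟩ := Submodule.mem_sup.1 hy
      rw [map_add]
      exact Submodule.add_mem_sup (hXinv d hd) (hP2 e he)
    · calc K ≤ X ⊔ (P' ⊔ Q') := hle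
        _ = X ⊔ P' ⊔ Q' := by rw [sup_assoc]
    · intro p hp q hq
      obtain ⟨d, hd, e, he, rfl⟩ := Submodule.mem_sup.1 hp
      rw [map_add, LinearMap.add_apply, horth e he q hq, (hQ1 hq).2 d hd, add_zero]
    · intro q hq hq0
      obtain ⟨d, hd, e, he, rfl⟩ := Submodule.mem_sup.1 hq
      have h1 : D.B d e = 0 := (hP1 he).2 d hd
      have h2 : D.B e d = 0 := by rw [D.symm, h1]
      have h3 : D.B (d + e) (d + e) = D.B d d + D.B e e := by
        simp only [map_add, LinearMap.add_apply, h1, h2]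
        ring
      obtain ⟨r, hr0, hr1, hr2⟩ := hXself d hd
      rw [h3, hr2]
      by_cases hd0 : d = 0
      · have he0 : e ≠ 0 := by
          rintro rfl
          exact hq0 (by rw [hd0, add_zero])
        nlinarith [hpos e he he0]
      · by_cases he0 : e = 0
        · rw [he0]
          simp only [map_zero, add_zero]
          nlinarith [hr1 hd0]
        · nlinarith [hpos e he he0, hr1 hd0]

lemma B_pair_zero {x : V} (h : D.B x x = 0) (a b : ℍ[ℝ]) : D.B (op a • x) (op b • x) = 0 := by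
  have key : ∀ c : ℍ[ℝ], D.B x (op c • x) = 0 := by
    intro c
    have h1 : D.B x (op c • x) = D.B x (op (star c) • x) := by rw [← D.comp, D.symm]
    have h2 : D.B x (op (star c) • x) + D.B x (op c • x) = 2 * c.re * D.B x x := by
      rw [← map_add, ← add_smul, ← op_add]
      have : (star c + c : ℍ[ℝ]) = ((2 * c.re : ℝ) : ℍ[ℝ]) := by
        ext <;> simp
        ring
      rw [this, op_coe_smul, map_smul, smul_eq_mul]
    rw [h, mul_zero] at h2
    linarith
  rw [D.comp, smul_smul, ← op_mul]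
  exact key _

/-- Neutral vectors of a nonnegative subspace are orthogonal to it. -/
lemma neutral_orth {M : Submodule ℍ[ℝ]ᵐᵒᵖ V} (hM : ∀ x ∈ M, 0 ≤ D.B x x) {n m : V} (hn : n ∈ M)
    (hm : m ∈ M) (h0 : D.B n n = 0) : D.B n m = 0 := by
  have key : ∀ t : ℝ, 0 ≤ D.B m m + 2 * t * D.B n m := by
    intro t
    have h1 : m + t • n ∈ M := by
      rw [← op_coe_smul]
      exact M.add_mem hm (M.smul_mem _ hn)
    have h2 := hM _ h1
    simp only [map_add, LinearMap.add_apply, map_smul, LinearMap.smul_apply, smul_eq_mul, h0,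
      D.symm m n] at h2
    linarith
  by_contra hne
  have h1 := key (-(D.B m m + 1) / (2 * D.B n m))
  have h2 : 2 * (-(D.B m m + 1) / (2 * D.B n m)) * D.B n m = -(D.B m m + 1) := by
    field_simp
  rw [h2] at h1
  linarith

theorem exists_max (hrad : ∀ x, (∀ y, D.B x y = 0) → D.A x = 0) (E : Set ℍ[ℝ])
    (hsim : ∀ l ∈ E, ∀ a : ℍ[ℝ], a ≠ 0 → a⁻¹ * l * a ∈ E) (h0 : ∀ l : ℍ[ℝ], l.re = 0 → l ∈ E)
    (hE : ∀ x, x ≠ 0 → ∀ l : ℍ[ℝ], D.A x = op l • x → l ∈ E ∨ -l ∈ E)
    (N : Submodule ℍ[ℝ]ᵐᵒᵖ V) (hN : ∀ x ∈ N, D.A x ∈ N) (hNn : ∀ x ∈ N, ∀ y ∈ N, D.B x y = 0)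
    (hNE : ∀ x ∈ N, x ≠ 0 → ∀ l : ℍ[ℝ], D.A x = op l • x → l ∈ E) :
    ∃ L : Submodule ℍ[ℝ]ᵐᵒᵖ V, N ≤ L ∧ (∀ x ∈ L, D.A x ∈ L) ∧ (∀ x ∈ L, 0 ≤ D.B x x) ∧
      (∀ x ∈ L, x ≠ 0 → ∀ l : ℍ[ℝ], D.A x = op l • x → l ∈ E) ∧
      ∀ M : Submodule ℍ[ℝ]ᵐᵒᵖ V, L ≤ M → (∀ x ∈ M, 0 ≤ D.B x x) → M ≤ L := by
  -- a maximal invariant neutral subspace with the spectral constraint
  have hnoeth : IsNoetherian ℍ[ℝ]ᵐᵒᵖ V := isNoetherian_of_tower ℝ inferInstance
  let S : Set (Submodule ℍ[ℝ]ᵐᵒᵖ V) := {M | N ≤ M ∧ (∀ x ∈ M, D.A x ∈ M) ∧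
    (∀ x ∈ M, ∀ y ∈ M, D.B x y = 0) ∧ (∀ x ∈ M, x ≠ 0 → ∀ l : ℍ[ℝ], D.A x = op l • x → l ∈ E)}
  have hSne : S.Nonempty := ⟨N, le_rfl, hN, hNn, hNE⟩
  obtain ⟨N', hN'S, hN'max⟩ := (wellFounded_gt : WellFounded
    ((· > ·) : Submodule ℍ[ℝ]ᵐᵒᵖ V → Submodule ℍ[ℝ]ᵐᵒᵖ V → Prop)).has_min S hSne
  obtain ⟨hNN', hinv, hneu, heig⟩ := hN'S
  have hmax : ∀ M ∈ S, N' ≤ M → M ≤ N' := by
    intro M hM hle
    by_contra hnot
    exact hN'max M hM (lt_of_le_not_ge hle hnot)
  -- the radical is contained in `N'`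
  have hR : D.perp ⊤ ≤ N' := by
    have hRA : ∀ r ∈ D.perp ⊤, D.A r = 0 := by
      intro r hr
      apply hrad
      intro y
      rw [D.symm]
      exact hr y trivial
    have hmem : N' ⊔ D.perp ⊤ ∈ S := by
      refine ⟨hNN'.trans le_sup_left, ?_, ?_, ?_⟩
      · intro x hx
        obtain ⟨n, hn, r, hr, rfl⟩ := Submodule.mem_sup.1 hx
        rw [map_add, hRA r hr, add_zero]
        exact Submodule.mem_sup_left (hinv n hn)
      · intro x hx y hy
        obtain ⟨n, hn, r, hr, rfl⟩ := Submodule.mem_sup.1 hx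
        obtain ⟨n', hn', r', hr', rfl⟩ := Submodule.mem_sup.1 hy
        rw [map_add, hr' _ trivial, add_zero, D.symm, map_add, hr _ trivial, add_zero]
        exact hneu _ hn' _ hn
      · intro x hx hx0 l hxl
        by_cases hl : l = 0
        · exact h0 l (by rw [hl]; simp)
        obtain ⟨n, hn, r, hr, rfl⟩ := Submodule.mem_sup.1 hx
        have h1 : n + r ∈ N' := by
          have h2 : D.A (n + r) ∈ N' := by
            rw [map_add, hRA r hr, add_zero]
            exact hinv n hn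
          rw [hxl] at h2
          have h3 := N'.smul_mem (op l⁻¹) h2
          rwa [smul_smul, ← op_mul, mul_inv_cancel₀ hl, op_one, one_smul] at h3
        exact heig _ h1 hx0 l hxl
    exact le_sup_right.trans (hmax _ hmem le_sup_left)
  -- the orthogonal complement `U` of `N'`
  let U : Submodule ℍ[ℝ]ᵐᵒᵖ V := D.perp N'
  have hN'U : N' ≤ U := fun x hx d hd => hneu d hd x hx
  have hUinv : ∀ x ∈ U, D.A x ∈ U := D.perp_inv hinv
  have hUU : ∀ x, (∀ u ∈ U, D.B x u = 0) → x ∈ N' := by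
    let n := N'.restrictScalars ℝ
    have hu : U.restrictScalars ℝ = D.B.orthogonal n := rfl
    have hRn : D.B.orthogonal ⊤ ≤ n := by
      intro x hx
      exact hR (fun d _ => hx d trivial)
    have hnu : n ≤ D.B.orthogonal n := hN'U
    have e1 := LinearMap.BilinForm.finrank_add_finrank_orthogonal D.isRefl n
    have e2 := LinearMap.BilinForm.finrank_add_finrank_orthogonal D.isRefl (D.B.orthogonal n)
    rw [inf_eq_right.2 hRn] at e1
    rw [inf_eq_right.2 (hRn.trans hnu)] at e2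
    have hle := LinearMap.BilinForm.le_orthogonal_orthogonal (N := n) D.isRefl
    have heq : n = D.B.orthogonal (D.B.orthogonal n) :=
      Submodule.eq_of_le_of_finrank_eq hle (by omega)
    intro x hx
    have : x ∈ D.B.orthogonal (D.B.orthogonal n) := by
      intro u hu
      rw [D.symm]
      exact hx u hu
    rw [← heq] at this
    exact this
  -- a complement of `N'` in `U`
  obtain ⟨C', hC'⟩ := Submodule.exists_isCompl N'
  let π : V →ₗ[ℍ[ℝ]ᵐᵒᵖ] V := C'.subtype ∘ₗ Submodule.projectionOnto C' N' hC'.symm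
  have hπC : ∀ v, π v ∈ C' := fun v => (Submodule.projectionOnto C' N' hC'.symm v).2
  have hπN : ∀ n ∈ N', π n = 0 := by
    intro n hn
    change ((Submodule.projectionOnto C' N' hC'.symm n : C') : V) = 0
    rw [(Submodule.projectionOnto_apply_eq_zero_iff hC'.symm).2 hn]
    rfl
  have hπid : ∀ c ∈ C', π c = c := by
    intro c hc
    change ((Submodule.projectionOnto C' N' hC'.symm c : C') : V) = c
    rw [Submodule.projectionOnto_apply_left hC'.symm ⟨c, hc⟩]
  have hπsub : ∀ v, v - π v ∈ N' := by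
    intro v
    have h1 : v ∈ N' ⊔ C' := by rw [hC'.sup_eq_top]; trivial
    obtain ⟨n, hn, c, hc, rfl⟩ := Submodule.mem_sup.1 h1
    rw [map_add, hπN n hn, hπid c hc, zero_add, add_sub_cancel_right]
    exact hn
  let C : Submodule ℍ[ℝ]ᵐᵒᵖ V := C' ⊓ U
  have hπU : ∀ v ∈ U, π v ∈ C := by
    intro v hv
    refine ⟨hπC v, ?_⟩
    have : π v = v - (v - π v) := by abel
    rw [this]
    exact U.sub_mem hv (hN'U (hπsub v))
  have hCN : ∀ x ∈ C, x ∈ N' → x = 0 := by
    intro x hx hx'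
    exact (Submodule.disjoint_def.1 hC'.disjoint) x hx' hx.1
  -- the compressed operator
  let Abar : C →ₗ[ℍ[ℝ]ᵐᵒᵖ] C := (π ∘ₗ D.A).restrict (fun x hx => hπU _ (hUinv x hx.2))
  have hAbar : ∀ c : C, ((Abar c : C) : V) = π (D.A c) := fun c => rfl
  have hAbar' : ∀ c : C, D.A c - ((Abar c : C) : V) ∈ N' := fun c => hπsub _
  let BC : LinearMap.BilinForm ℝ C := LinearMap.mk₂ ℝ (fun x y : C => D.B (x : V) (y : V))
    (by intro x y z; simp) (by intro r x y; simp) (by intro x y z; simp) (by intro r x y; simp)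
  have hBC : ∀ x y : C, BC x y = D.B (x : V) (y : V) := fun x y => rfl
  let DC : SkewData C :=
    { B := BC
      symm := fun x y => D.symm _ _
      comp := fun a x y => D.comp a _ _
      A := Abar
      skew := by
        intro x y
        rw [hBC, hBC]
        have h1 : D.B ((Abar x : C) : V) y = D.B (D.A x) y := by
          have : D.B (D.A x - ((Abar x : C) : V)) y = 0 := y.2.2 _ (hAbar' x)
          rw [map_sub, LinearMap.sub_apply] at this
          linarith
        have h2 : D.B (x : V) ((Abar y : C) : V) = D.B x (D.A y) := by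
          have : D.B (D.A y - ((Abar y : C) : V)) x = 0 := x.2.2 _ (hAbar' y)
          rw [D.symm, map_sub] at this
          linarith
        rw [h1, h2, D.skew] }
  have hfdC : FiniteDimensional ℝ C :=
    inferInstanceAs (FiniteDimensional ℝ (C.restrictScalars ℝ))
  have hUdec : ∀ u ∈ U, ∃ c : C, u - c ∈ N' := fun u hu => ⟨⟨π u, hπU u hu⟩, hπsub u⟩
  obtain ⟨P', Q', -, -, hP2, hQ2, hsup, horth, hpos, hneg⟩ := DC.split E _ ⊤ rfl
    (fun _ _ => trivial)
    (by
      intro x _ hx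
      apply Subtype.ext
      apply hCN x.1 x.2
      apply hUU
      intro u hu
      obtain ⟨c, hc⟩ := hUdec u hu
      have h1 : D.B (x : V) c = 0 := hx c trivial
      have h2 : D.B (u - c) x = 0 := x.2.2 _ hc
      rw [D.symm, map_sub, h1, sub_zero] at h2
      exact h2)
    (by
      intro x _ hx0 l hl hxl hBx
      have hxl' : π (D.A x) = op l • (x : V) := congrArg Subtype.val hxl
      have hx0' : (x : V) ≠ 0 := fun h => hx0 (Subtype.ext h)
      have hxN : (x : V) ∉ N' := fun h => hx0' (hCN x.1 x.2 h)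
      have hAx : D.A x - op l • (x : V) ∈ N' := by rw [← hxl']; exact hπsub _
      have hBx' : D.B (x : V) x = 0 := hBx
      apply hxN
      have hmem : N' ⊔ Submodule.span _ {(x : V)} ∈ S := by
        have hspan : ∀ y ∈ Submodule.span ℍ[ℝ]ᵐᵒᵖ {(x : V)}, ∃ a : ℍ[ℝ], op a • (x : V) = y := by
          intro y hy
          rw [Submodule.mem_span_singleton] at hy
          obtain ⟨a, rfl⟩ := hy
          exact ⟨a.unop, by rw [op_unop]⟩
        refine ⟨hNN'.trans le_sup_left, ?_, ?_, ?_⟩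
        · intro y hy
          obtain ⟨n, hn, z, hz, rfl⟩ := Submodule.mem_sup.1 hy
          obtain ⟨a, rfl⟩ := hspan z hz
          have : D.A (n + op a • (x : V)) =
              (D.A n + op a • (D.A x - op l • (x : V))) + op a • (op l • (x : V)) := by
            rw [map_add, map_smul, smul_sub]; abel
          rw [this]
          exact Submodule.add_mem_sup (N'.add_mem (hinv n hn) (N'.smul_mem _ hAx))
            (Submodule.smul_mem _ _ (Submodule.smul_mem _ _ (Submodule.mem_span_singleton_self _)))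
        · intro y hy z hz
          obtain ⟨n, hn, w, hw, rfl⟩ := Submodule.mem_sup.1 hy
          obtain ⟨a, rfl⟩ := hspan w hw
          obtain ⟨n', hn', w', hw', rfl⟩ := Submodule.mem_sup.1 hz
          obtain ⟨a', rfl⟩ := hspan w' hw'
          have hxU : ∀ b : ℍ[ℝ], op b • (x : V) ∈ U := fun b => U.smul_mem _ x.2.2
          have e1 : D.B n n' = 0 := hneu n hn n' hn'
          have e2 : D.B n (op a' • (x : V)) = 0 := hxU a' n hn
          have e3 : D.B (op a • (x : V)) n' = 0 := by rw [D.symm]; exact hxU a n' hn'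
          have e4 : D.B (op a • (x : V)) (op a' • (x : V)) = 0 := D.B_pair_zero hBx' a a'
          simp only [map_add, LinearMap.add_apply, e1, e2, e3, e4, add_zero]
        · intro y hy hy0 m hym
          obtain ⟨n, hn, w, hw, rfl⟩ := Submodule.mem_sup.1 hy
          obtain ⟨a, rfl⟩ := hspan w hw
          by_cases ha : a = 0
          · have e : n + op a • (x : V) = n := by rw [ha]; simp
            rw [e] at hym hy0
            exact heig n hn hy0 m hym
          · have h1 : op (l * a - a * m) • (x : V) ∈ N' := by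
              have : op (l * a - a * m) • (x : V) = op m • n - D.A n
                  - op a • (D.A x - op l • (x : V)) := by
                have h2 : D.A n + op a • D.A x = op m • n + op m • (op a • (x : V)) := by
                  rw [← map_smul, ← map_add, hym, smul_add]
                have h3 : op m • n = D.A n + op a • D.A x - op m • (op a • (x : V)) := by
                  rw [h2]; abel
                rw [h3, op_sub, sub_smul, op_mul, op_mul, mul_smul, mul_smul, smul_sub]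
                abel
              rw [this]
              exact N'.sub_mem (N'.sub_mem (N'.smul_mem _ hn) (hinv n hn)) (N'.smul_mem _ hAx)
            have h2 : l * a - a * m = 0 := by
              by_contra hne
              apply hxN
              have h3 := N'.smul_mem (op (l * a - a * m)⁻¹) h1
              rwa [smul_smul, ← op_mul, mul_inv_cancel₀ hne, op_one, one_smul] at h3
            have h3 : m = a⁻¹ * l * a := by
              rw [mul_assoc, sub_eq_zero.1 h2, ← mul_assoc, inv_mul_cancel₀ ha, one_mul]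
            rw [h3]
            exact hsim l hl a ha
      exact hmax _ hmem le_sup_left (Submodule.mem_sup_right (Submodule.mem_span_singleton_self _)))
    (by
      intro x _ hx0 l hxl
      have hxl' : π (D.A x) = op l • (x : V) := congrArg Subtype.val hxl
      have hx0' : (x : V) ≠ 0 := fun h => hx0 (Subtype.ext h)
      have hxN : (x : V) ∉ N' := fun h => hx0' (hCN x.1 x.2 h)
      have hAx : D.A x - op l • (x : V) ∈ N' := by rw [← hxl']; exact hπsub _
      have hPx : P D.A l x ∈ N' := P_eig D.A N' hinv l x hAx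
      have hbotinv : ∀ y ∈ (⊥ : Submodule ℍ[ℝ]ᵐᵒᵖ V), D.A y ∈ (⊥ : Submodule ℍ[ℝ]ᵐᵒᵖ V) := by
        intro y hy; rw [(Submodule.mem_bot _).1 hy]; simp
      by_cases hinj : ∀ y ∈ N', P D.A l y = 0 → y = 0
      · obtain ⟨n, hn, hPn⟩ := D.P_surj hinv l hinj _ hPx
        have h1 : P D.A l (x - n) = 0 := by
          have : (x : V) - n = x + (-1 : ℝ) • n := by rw [neg_one_smul]; abel
          rw [this, P_add, P_smul, hPn, neg_one_smul]
          abel
        obtain ⟨z, -, hz0, hzl⟩ := eig_of_P D.A ⊥ ⊤ (fun _ _ => trivial) l (x - n) trivial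
          (fun h => hxN (by
            rw [sub_eq_zero.1 ((Submodule.mem_bot _).1 h)]; exact hn))
          (by rw [h1]; exact Submodule.zero_mem _)
        exact hE z (fun h => hz0 (by rw [h]; exact Submodule.zero_mem _)) l
          (sub_eq_zero.1 ((Submodule.mem_bot _).1 hzl))
      · push Not at hinj
        obtain ⟨y, hy, hPy, hy0⟩ := hinj
        obtain ⟨z, hz, hz0, hzl⟩ := eig_of_P D.A ⊥ N' hinv l y hy
          (fun h => hy0 ((Submodule.mem_bot _).1 h)) (by rw [hPy]; exact Submodule.zero_mem _)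
        exact hE z (fun h => hz0 (by rw [h]; exact Submodule.zero_mem _)) l
          (sub_eq_zero.1 ((Submodule.mem_bot _).1 hzl)))
  -- the subspace
  let Pv : Submodule ℍ[ℝ]ᵐᵒᵖ V := P'.map C.subtype
  have hPv : ∀ y ∈ Pv, ∃ p : C, p ∈ P' ∧ (p : V) = y := by
    intro y hy
    obtain ⟨p, hp, rfl⟩ := Submodule.mem_map.1 hy
    exact ⟨p, hp, rfl⟩
  refine ⟨N' ⊔ Pv, hNN'.trans le_sup_left, ?_, ?_, ?_, ?_⟩
  · intro x hx
    obtain ⟨n, hn, y, hy, rfl⟩ := Submodule.mem_sup.1 hx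
    obtain ⟨p, hp, rfl⟩ := hPv y hy
    have : D.A (n + (p : V)) = (D.A n + (D.A p - ((Abar p : C) : V))) + ((Abar p : C) : V) := by
      rw [map_add]; abel
    rw [this]
    exact Submodule.add_mem_sup (N'.add_mem (hinv n hn) (hAbar' p))
      (Submodule.mem_map.2 ⟨_, hP2 p hp, rfl⟩)
  · intro x hx
    obtain ⟨n, hn, y, hy, rfl⟩ := Submodule.mem_sup.1 hx
    obtain ⟨p, hp, rfl⟩ := hPv y hy
    have e1 : D.B n n = 0 := hneu n hn n hn
    have e2 : D.B n (p : V) = 0 := p.2.2 n hn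
    have e3 : D.B (p : V) n = 0 := by rw [D.symm, e2]
    have e4 : 0 ≤ D.B (p : V) p := by
      by_cases hp0 : p = 0
      · rw [hp0]; simp
      · exact (hpos p hp hp0).le
    simp only [map_add, LinearMap.add_apply, e1, e2, e3, zero_add, add_zero]
    exact e4
  · intro x hx hx0 l hxl
    obtain ⟨n, hn, y, hy, rfl⟩ := Submodule.mem_sup.1 hx
    obtain ⟨p, hp, rfl⟩ := hPv y hy
    by_cases hp0 : p = 0
    · have e : n + (p : V) = n := by rw [hp0]; simp
      rw [e] at hxl hx0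
      exact heig n hn hx0 l hxl
    · apply h0
      by_contra hl
      have hpl : Abar p = op l • p := by
        apply Subtype.ext
        rw [hAbar]
        have h1 : π (D.A (n + (p : V))) = π (D.A p) := by
          rw [map_add, map_add, hπN _ (hinv n hn), zero_add]
        rw [← h1, hxl, map_smul, map_add, hπN n hn, zero_add, hπid _ p.2.1]
        rfl
      have := DC.B_eig_zero hl hpl
      exact (hpos p hp hp0).ne' this
  · intro M hM hMnn m hm
    have hmU : m ∈ U := by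
      intro n hn
      exact D.neutral_orth hMnn (hM (Submodule.mem_sup_left hn)) hm (hneu n hn n hn)
    obtain ⟨c, hc⟩ := hUdec m hmU
    obtain ⟨p, hp, q, hq, hpq⟩ := Submodule.mem_sup.1 (hsup (show c ∈ ⊤ from trivial))
    have hpM : (p : V) ∈ M := hM (Submodule.mem_sup_right (Submodule.mem_map.2 ⟨p, hp, rfl⟩))
    have hmc : m = (m - c) + p + q := by
      rw [← hpq]
      push_cast
      abel
    have hqM : (q : V) ∈ M := by
      have : (q : V) = m - (m - c) - p := by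
        rw [← hpq]
        push_cast
        abel
      rw [this]
      exact M.sub_mem (M.sub_mem hm (hM (Submodule.mem_sup_left hc))) hpM
    have hq0 : q = 0 := by
      by_contra hne
      have h1 := hneg q hq hne
      have h2 := hMnn _ hqM
      exact absurd h1 (not_lt.2 h2)
    rw [hmc, hq0]
    simp only [ZeroMemClass.coe_zero, add_zero]
    exact Submodule.add_mem_sup hc (Submodule.mem_map.2 ⟨p, hp, rfl⟩)

/-- eigenvectors for an eigenvalue `l` with `-l` not an eigenvalue on `L` lie in `L` -/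
theorem eig_mem (L : Submodule ℍ[ℝ]ᵐᵒᵖ V) (hL : ∀ x ∈ L, D.A x ∈ L) (hnn : ∀ x ∈ L, 0 ≤ D.B x x)
    (hmax : ∀ M : Submodule ℍ[ℝ]ᵐᵒᵖ V, L ≤ M → (∀ x ∈ M, 0 ≤ D.B x x) → M ≤ L)
    {x : V} {l : ℍ[ℝ]} (hl : l.re ≠ 0) (hx : D.A x = op l • x)
    (hneg : ∀ y ∈ L, y ≠ 0 → D.A y ≠ op (-l) • y) : x ∈ L := by
  have hbotinv : ∀ y ∈ (⊥ : Submodule ℍ[ℝ]ᵐᵒᵖ V), D.A y ∈ (⊥ : Submodule ℍ[ℝ]ᵐᵒᵖ V) := by
    intro y hy; rw [(Submodule.mem_bot _).1 hy]; simp
  have hinj : ∀ y ∈ L, P D.A (-l) y = 0 → y = 0 := by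
    intro y hy hPy
    by_contra hy0
    obtain ⟨z, hz, hz0, hzl⟩ := eig_of_P D.A ⊥ L hL (-l) y hy
      (fun h => hy0 ((Submodule.mem_bot _).1 h)) (by rw [hPy]; exact Submodule.zero_mem _)
    exact hneg z hz (fun h => hz0 (by rw [h]; exact Submodule.zero_mem _))
      (sub_eq_zero.1 ((Submodule.mem_bot _).1 hzl))
  have hPx : P D.A l x = 0 :=
    (Submodule.mem_bot _).1 (P_eig D.A ⊥ hbotinv l x (by rw [hx, sub_self]; exact Submodule.zero_mem _))
  have horth : ∀ y ∈ L, D.B x y = 0 := by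
    intro y hy
    obtain ⟨z, _, rfl⟩ := D.P_surj hL (-l) hinj y hy
    rw [← D.B_P, hPx]
    simp
  have hBx : D.B x x = 0 := D.B_eig_zero hl hx
  refine hmax (L ⊔ Submodule.span _ {x}) le_sup_left ?_
    (Submodule.mem_sup_right (Submodule.mem_span_singleton_self _))
  intro y hy
  obtain ⟨z, hz, w, hw, rfl⟩ := Submodule.mem_sup.1 hy
  rw [Submodule.mem_span_singleton] at hw
  obtain ⟨a, rfl⟩ := hw
  have e1 : D.B (a • x) z = 0 := by
    rw [← op_unop a, D.comp]
    exact horth _ (L.smul_mem _ hz)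
  have e2 : D.B z (a • x) = 0 := by rw [D.symm, e1]
  have e3 : D.B (a • x) (a • x) = 0 := by
    rw [← op_unop a, D.B_smul_self, hBx, mul_zero]
  simp only [map_add, LinearMap.add_apply, e1, e2, e3, add_zero]
  exact hnn z hz

end SkewData

end Pool.Agent.Lib.H75.QuatExt
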