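import Pool.Agent.Lib.H75.QuatDefs
import Pool.Agent.Lib.H75.QuatExt

set_option autoImplicit false
set_option linter.unusedSectionVars false

namespace Pool.Agent.Lib.H75.QuatMat

open MulOpposite Quaternion Matrix Pool.Agent.Lib.H75.QuatDefs Pool.Agent.Lib.H75.QuatExt

/-! ### Nonstandard involutions -/

section Invol

variable {φ : ℍ[ℝ] →ₗ[ℝ] ℍ[ℝ]} (hφ : IsNonstandardInvolution φ)

include hφ

lemma phi_one : φ 1 = 1 := by
  have h1 : φ 1 * φ 1 = φ 1 := by rw [← hφ.anti, one_mul]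
  have h2 : φ 1 ≠ 0 := by
    intro h
    have := hφ.invol 1
    rw [h, map_zero] at this
    exact zero_ne_one this
  exact mul_left_cancel₀ h2 (by rw [h1, mul_one])

lemma phi_coe (r : ℝ) : φ (r : ℍ[ℝ]) = r := by
  have : (r : ℍ[ℝ]) = r • (1 : ℍ[ℝ]) := by ext <;> simp
  rw [this, map_smul, phi_one hφ]

/-- the square of a quaternion is a nonpositive real iff it is purely imaginary (one direction) -/
lemma re_zero_of_sq {w : ℍ[ℝ]} {r : ℝ} (hr : 0 ≤ r) (h : w * w = ((-r : ℝ) : ℍ[ℝ])) : w.re = 0 := by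
  have h0 := congrArg QuaternionAlgebra.re h
  have h1 := congrArg QuaternionAlgebra.imI h
  have h2 := congrArg QuaternionAlgebra.imJ h
  have h3 := congrArg QuaternionAlgebra.imK h
  simp only [re_mul, imI_mul, imJ_mul, imK_mul, re_coe, imI_coe, imJ_coe, imK_coe] at h0 h1 h2 h3
  by_contra hne
  have e1 : w.imI = 0 := by
    have : w.re * w.imI = 0 := by linarith
    exact (mul_eq_zero.1 this).resolve_left hne
  have e2 : w.imJ = 0 := by
    have : w.re * w.imJ = 0 := by linarith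
    exact (mul_eq_zero.1 this).resolve_left hne
  have e3 : w.imK = 0 := by
    have : w.re * w.imK = 0 := by linarith
    exact (mul_eq_zero.1 this).resolve_left hne
  rw [e1, e2, e3] at h0
  have : 0 < w.re * w.re := mul_self_pos.2 hne
  linarith

lemma sq_of_re_zero {w : ℍ[ℝ]} (h : w.re = 0) : w * w = ((-(normSq w) : ℝ) : ℍ[ℝ]) := by
  ext
  · simp only [re_mul, re_coe, normSq_def', h]; ring
  · simp only [imI_mul, imI_coe, h]; ring
  · simp only [imJ_mul, imJ_coe, h]; ring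
  · simp only [imK_mul, imK_coe, h]; ring

lemma phi_re (z : ℍ[ℝ]) : (φ z).re = z.re := by
  have h1 : ∀ w : ℍ[ℝ], w.re = 0 → (φ w).re = 0 := by
    intro w hw
    apply re_zero_of_sq hφ (r := normSq w) normSq_nonneg
    rw [← hφ.anti, sq_of_re_zero hφ hw, phi_coe hφ]
  have h2 : (z - (z.re : ℍ[ℝ])).re = 0 := by simp
  have h3 := h1 _ h2
  rw [map_sub, phi_coe hφ] at h3
  simp at h3
  linarith

lemma star_eq (z : ℍ[ℝ]) : star z = ((2 * z.re : ℝ) : ℍ[ℝ]) - z := by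
  ext <;> simp
  ring

lemma phi_star (z : ℍ[ℝ]) : φ (star z) = star (φ z) := by
  rw [star_eq hφ z, star_eq hφ (φ z), map_sub, phi_coe hφ, phi_re hφ]

/-- classification of the nonstandard involutions -/
lemma phi_eq {β : ℍ[ℝ]} (hβ : φ β = -β) (hβ1 : ‖β‖ = 1) (z : ℍ[ℝ]) : φ z = β * star z * β⁻¹ := by
  have hβ0 : β ≠ 0 := by
    rintro rfl
    simp at hβ1
  have hβre : β.re = 0 := by
    have := phi_re hφ β
    rw [hβ, re_neg] at this
    linarith
  have hβstar : star β = -β := by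
    rw [star_eq hφ β, hβre]
    simp
  -- the automorphism `c z = φ (star z)`
  have cmul : ∀ x y : ℍ[ℝ], φ (star (x * y)) = φ (star x) * φ (star y) := by
    intro x y
    rw [star_mul, hφ.anti]
  have cc : ∀ x : ℍ[ℝ], φ (star (φ (star x))) = x := by
    intro x
    rw [phi_star hφ x, star_star, hφ.invol]
  have cβ : φ (star β) = β := by rw [hβstar, map_neg, hβ, neg_neg]
  have cre : ∀ x : ℍ[ℝ], (φ (star x)).re = x.re := by
    intro x
    rw [phi_re hφ, re_star]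
  -- the `-1` eigenspace anticommutes with `β`
  have anti : ∀ y : ℍ[ℝ], φ (star y) = -y → y * β = -(β * y) := by
    intro y hy
    have h1 : y.re = 0 := by
      have := cre y
      rw [hy, re_neg] at this
      linarith
    have h2 : (y * β).re = 0 := by
      have := cre (y * β)
      rw [cmul, hy, cβ, neg_mul, re_neg] at this
      linarith
    rw [re_mul] at h2
    ext
    · simp only [re_mul, re_neg]
      rw [h1, hβre] at *
      linarith
    · simp only [imI_mul, imI_neg]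
      rw [h1, hβre]
      ring
    · simp only [imJ_mul, imJ_neg]
      rw [h1, hβre]
      ring
    · simp only [imK_mul, imK_neg]
      rw [h1, hβre]
      ring
  -- a nonzero element of the `-1` eigenspace
  obtain ⟨x, hx⟩ := hφ.ne_conj
  obtain ⟨y, hy0, hy⟩ : ∃ y : ℍ[ℝ], y ≠ 0 ∧ φ (star y) = -y := by
    refine ⟨star x - φ (star (star x)), ?_, ?_⟩
    · rw [star_star]
      intro h
      exact hx (sub_eq_zero.1 h).symm
    · rw [star_sub, map_sub, cc, neg_sub]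
  -- the `+1` eigenspace commutes with `β`
  have comm : ∀ z : ℍ[ℝ], φ (star z) = z → z * β = β * z := by
    intro z hz
    have h1 : φ (star (y * z)) = -(y * z) := by rw [cmul, hy, hz, neg_mul]
    have h2 := anti _ h1
    have h3 : y * (z * β) = y * (β * z) := by
      rw [← mul_assoc, h2, ← mul_assoc y β z, anti y hy]
      noncomm_ring
    exact mul_left_cancel₀ hy0 h3
  have key : ∀ z : ℍ[ℝ], φ (star z) * β = β * z := by
    intro z
    have h1 : φ (star (z + φ (star z))) = z + φ (star z) := by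
      rw [star_add, map_add, cc, add_comm]
    have h2 : φ (star (z - φ (star z))) = -(z - φ (star z)) := by
      rw [star_sub, map_sub, cc, neg_sub]
    have h3 := comm _ h1
    have h4 := anti _ h2
    rw [add_mul, mul_add] at h3
    rw [sub_mul, mul_sub] at h4
    have h5 : (2 : ℝ) • (φ (star z) * β) = (2 : ℝ) • (β * z) := by
      rw [two_smul, two_smul]
      have : φ (star z) * β + φ (star z) * β =
          (z * β + φ (star z) * β) - (z * β - φ (star z) * β) := by abel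
      rw [this, h3, h4]
      abel
    exact smul_right_injective _ (two_ne_zero' ℝ) h5
  have := key (star z)
  rw [star_star] at this
  rw [← this, mul_assoc, mul_inv_cancel₀ hβ0, mul_one]

end Invol

/-! ### Matrices -/

section Mat

variable {n : ℕ} {φ : ℍ[ℝ] →ₗ[ℝ] ℍ[ℝ]}

/-- the linear map of a matrix -/
noncomputable def toLin (A : Matrix (Fin n) (Fin n) ℍ[ℝ]) :
    (Fin n → ℍ[ℝ]) →ₗ[ℍ[ℝ]ᵐᵒᵖ] (Fin n → ℍ[ℝ]) where
  toFun := fun x => A *ᵥ x
  map_add' := fun x y => mulVec_add A x y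
  map_smul' := fun a x => mulVec_smul A a x

lemma toLin_apply (A : Matrix (Fin n) (Fin n) ℍ[ℝ]) (x : Fin n → ℍ[ℝ]) : toLin A x = A *ᵥ x := rfl

lemma form_add_left (G : Matrix (Fin n) (Fin n) ℍ[ℝ]) (x x' y : Fin n → ℍ[ℝ]) :
    form φ G (x + x') y = form φ G x y + form φ G x' y := by
  simp only [form, mulVec_add, Pi.add_apply, mul_add, Finset.sum_add_distrib]

lemma form_add_right (G : Matrix (Fin n) (Fin n) ℍ[ℝ]) (x y y' : Fin n → ℍ[ℝ]) :
    form φ G x (y + y') = form φ G x y + form φ G x y' := by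
  simp only [form, Pi.add_apply, map_add, add_mul, Finset.sum_add_distrib]

lemma form_smul_left (G : Matrix (Fin n) (Fin n) ℍ[ℝ]) (r : ℝ) (x y : Fin n → ℍ[ℝ]) :
    form φ G (r • x) y = r • form φ G x y := by
  simp only [form, mulVec_smul, Pi.smul_apply, mul_smul_comm, Finset.smul_sum]

lemma form_smul_right (G : Matrix (Fin n) (Fin n) ℍ[ℝ]) (r : ℝ) (x y : Fin n → ℍ[ℝ]) :
    form φ G x (r • y) = r • form φ G x y := by
  simp only [form, Pi.smul_apply, map_smul, smul_mul_assoc, Finset.smul_sum]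

lemma form_op_left (G : Matrix (Fin n) (Fin n) ℍ[ℝ]) (a : ℍ[ℝ]) (x y : Fin n → ℍ[ℝ]) :
    form φ G (op a • x) y = form φ G x y * a := by
  simp only [form, mulVec_smul, Pi.smul_apply, op_smul_eq_mul, Finset.sum_mul, mul_assoc]

lemma form_mulVec_left (G A : Matrix (Fin n) (Fin n) ℍ[ℝ]) (x y : Fin n → ℍ[ℝ]) :
    form φ G (A *ᵥ x) y = form φ (G * A) x y := by
  simp only [form, mulVec_mulVec]

lemma form_neg (G : Matrix (Fin n) (Fin n) ℍ[ℝ]) (x y : Fin n → ℍ[ℝ]) :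
    form φ (-G) x y = - form φ G x y := by
  simp only [form, neg_mulVec, Pi.neg_apply, mul_neg, Finset.sum_neg_distrib]

/-- the real form -/
noncomputable def realForm (φ : ℍ[ℝ] →ₗ[ℝ] ℍ[ℝ]) (β : ℍ[ℝ]) (G : Matrix (Fin n) (Fin n) ℍ[ℝ]) :
    LinearMap.BilinForm ℝ (Fin n → ℍ[ℝ]) :=
  LinearMap.mk₂ ℝ (fun x y => (β⁻¹ * form φ G x y).re)
    (by intro x x' y; rw [form_add_left, mul_add, re_add])
    (by intro r x y; rw [form_smul_left, mul_smul_comm, re_smul])
    (by intro x y y'; rw [form_add_right, mul_add, re_add])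
    (by intro r x y; rw [form_smul_right, mul_smul_comm, re_smul])

lemma realForm_apply (φ : ℍ[ℝ] →ₗ[ℝ] ℍ[ℝ]) (β : ℍ[ℝ]) (G : Matrix (Fin n) (Fin n) ℍ[ℝ])
    (x y : Fin n → ℍ[ℝ]) : realForm φ β G x y = (β⁻¹ * form φ G x y).re := rfl

variable (hφ : IsNonstandardInvolution φ)

include hφ

lemma form_op_right (G : Matrix (Fin n) (Fin n) ℍ[ℝ]) (a : ℍ[ℝ]) (x y : Fin n → ℍ[ℝ]) :
    form φ G x (op a • y) = φ a * form φ G x y := by
  simp only [form, Pi.smul_apply, op_smul_eq_mul, hφ.anti, Finset.mul_sum, mul_assoc]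

lemma form_mulVec_right (G A : Matrix (Fin n) (Fin n) ℍ[ℝ]) (x y : Fin n → ℍ[ℝ]) :
    form φ G x (A *ᵥ y) = form φ (phiT φ A * G) x y := by
  have h1 : ∀ i, φ ((A *ᵥ y) i) = ∑ j, φ (y j) * φ (A i j) := by
    intro i
    simp only [mulVec, dotProduct, map_sum, hφ.anti]
  simp only [form, h1, Finset.sum_mul]
  rw [Finset.sum_comm]
  apply Finset.sum_congr rfl
  intro j _
  rw [← mulVec_mulVec]
  simp only [mulVec, dotProduct, phiT, Finset.mul_sum, mul_assoc]

lemma phiT_mul (X Y : Matrix (Fin n) (Fin n) ℍ[ℝ]) : phiT φ (X * Y) = phiT φ Y * phiT φ X := by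
  ext1 i j
  simp only [phiT, mul_apply, map_sum, hφ.anti]

lemma phi_form (G : Matrix (Fin n) (Fin n) ℍ[ℝ]) (x y : Fin n → ℍ[ℝ]) :
    φ (form φ G x y) = form φ (phiT φ G) y x := by
  simp only [form, map_sum, hφ.anti, hφ.invol, mulVec, dotProduct, phiT, Finset.mul_sum,
    mul_assoc]
  rw [Finset.sum_comm]

variable {β : ℍ[ℝ]} (hβ : φ β = -β) (hβ1 : ‖β‖ = 1)

include hβ hβ1

lemma beta_ne : β ≠ 0 := by
  rintro rfl
  simp at hβ1

lemma beta_star : star β⁻¹ = -β⁻¹ := by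
  have hre : β.re = 0 := by
    have := phi_re hφ β
    rw [hβ, re_neg] at this
    linarith
  have h1 : star β = -β := by
    rw [star_eq hφ β, hre]
    simp
  rw [star_inv₀, h1, neg_inv]

lemma re_mul_comm' (u v : ℍ[ℝ]) : (u * v).re = (v * u).re := by
  simp only [re_mul]
  ring

variable {G : Matrix (Fin n) (Fin n) ℍ[ℝ]} (hG : phiT φ G = -G)

include hG

/-- the hermitian symmetry of `β⁻¹ y_φ G x` -/
lemma herm (x y : Fin n → ℍ[ℝ]) : β⁻¹ * form φ G y x = star (β⁻¹ * form φ G x y) := by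
  have hβ0 := beta_ne hφ hβ hβ1
  have h1 : form φ G y x = -(φ (form φ G x y)) := by
    rw [phi_form hφ, hG, form_neg, neg_neg]
  rw [h1, phi_eq hφ hβ hβ1, star_mul, beta_star hφ hβ hβ1, mul_neg, mul_neg, ← mul_assoc,
    ← mul_assoc, inv_mul_cancel₀ hβ0, one_mul]

lemma self_real (x : Fin n → ℍ[ℝ]) :
    β⁻¹ * form φ G x x = (((β⁻¹ * form φ G x x).re : ℝ) : ℍ[ℝ]) := by
  have h := herm hφ hβ hβ1 hG x x
  have h1 := congrArg QuaternionAlgebra.imI h
  have h2 := congrArg QuaternionAlgebra.imJ h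
  have h3 := congrArg QuaternionAlgebra.imK h
  rw [imI_star] at h1
  rw [imJ_star] at h2
  rw [imK_star] at h3
  ext
  · simp
  · rw [imI_coe]; linarith
  · rw [imJ_coe]; linarith
  · rw [imK_coe]; linarith

end Mat

section Data

variable {n : ℕ} {φ : ℍ[ℝ] →ₗ[ℝ] ℍ[ℝ]} {β : ℍ[ℝ]} {H A : Matrix (Fin n) (Fin n) ℍ[ℝ]}

lemma phiT_HA (hφ : IsNonstandardInvolution φ) (hHφ : phiT φ H = H)
    (hA : H * A = -(phiT φ A * H)) : phiT φ (H * A) = -(H * A) := by
  rw [phiT_mul hφ, hHφ, hA, neg_neg]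

/-- the data of the abstract theorem -/
noncomputable def data (hφ : IsNonstandardInvolution φ) (hβ : φ β = -β) (hβ1 : ‖β‖ = 1)
    (hHφ : phiT φ H = H) (hA : H * A = -(phiT φ A * H)) : SkewData (Fin n → ℍ[ℝ]) where
  B := realForm φ β (H * A)
  symm := by
    intro x y
    rw [realForm_apply, realForm_apply, herm hφ hβ hβ1 (phiT_HA hφ hHφ hA) x y, re_star]
  comp := by
    intro a x y
    rw [realForm_apply, realForm_apply, form_op_left, form_op_right hφ, phi_eq hφ hβ hβ1, star_star,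
      ← mul_assoc, ← mul_assoc, ← mul_assoc, ← mul_assoc, inv_mul_cancel₀ (beta_ne hφ hβ hβ1),
      one_mul, mul_assoc a, re_mul_comm' hφ hβ hβ1]
  A := toLin A
  skew := by
    intro x y
    rw [realForm_apply, realForm_apply, toLin_apply, toLin_apply, form_mulVec_left,
      form_mulVec_right hφ, ← re_neg, ← mul_neg, ← form_neg]
    congr 3
    nth_rewrite 1 [hA]
    rw [neg_mul, Matrix.mul_assoc]

lemma data_A (hφ : IsNonstandardInvolution φ) (hβ : φ β = -β) (hβ1 : ‖β‖ = 1)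
    (hHφ : phiT φ H = H) (hA : H * A = -(phiT φ A * H)) (x : Fin n → ℍ[ℝ]) :
    (data hφ hβ hβ1 hHφ hA).A x = A *ᵥ x := rfl

lemma data_B (hφ : IsNonstandardInvolution φ) (hβ : φ β = -β) (hβ1 : ‖β‖ = 1)
    (hHφ : phiT φ H = H) (hA : H * A = -(phiT φ A * H)) (x y : Fin n → ℍ[ℝ]) :
    (data hφ hβ hβ1 hHφ hA).B x y = (β⁻¹ * form φ (H * A) x y).re := rfl

lemma data_rad (hφ : IsNonstandardInvolution φ) (hβ : φ β = -β) (hβ1 : ‖β‖ = 1) (hH : IsUnit H)
    (hHφ : phiT φ H = H) (hA : H * A = -(phiT φ A * H)) (x : Fin n → ℍ[ℝ])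
    (hx : ∀ y, (data hφ hβ hβ1 hHφ hA).B x y = 0) : (data hφ hβ hβ1 hHφ hA).A x = 0 := by
  have hβ0 := beta_ne hφ hβ hβ1
  have h1 : ∀ y, form φ (H * A) x y = 0 := by
    intro y
    have h2 := hx (op (β⁻¹ * form φ (H * A) x y) • y)
    rw [data_B, form_op_right hφ, phi_eq hφ hβ hβ1, ← mul_assoc, ← mul_assoc, ← mul_assoc,
      inv_mul_cancel₀ hβ0, one_mul, mul_assoc (star _), star_mul_self, re_coe] at h2
    have h3 := normSq_eq_zero.1 h2
    exact (mul_eq_zero.1 h3).resolve_left (inv_ne_zero hβ0)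
  have h2 : (H * A) *ᵥ x = 0 := by
    funext i
    have h3 := h1 (Pi.single i 1)
    rw [form, Finset.sum_eq_single i] at h3
    · rw [Pi.single_eq_same, phi_one hφ, one_mul] at h3
      exact h3
    · intro j _ hj
      rw [Pi.single_eq_of_ne hj, map_zero, zero_mul]
    · intro h
      exact absurd (Finset.mem_univ i) h
  rw [data_A]
  obtain ⟨u, rfl⟩ := hH
  have h3 : ((↑u⁻¹ : Matrix (Fin n) (Fin n) ℍ[ℝ]) *
      ((u : Matrix (Fin n) (Fin n) ℍ[ℝ]) * A)) *ᵥ x = 0 := by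
    rw [← mulVec_mulVec, h2, mulVec_zero]
  rwa [← Matrix.mul_assoc, Units.inv_mul, Matrix.one_mul] at h3

/-- the negated form -/
noncomputable def negData {V : Type*} [AddCommGroup V] [Module ℝ V] [Module ℍ[ℝ]ᵐᵒᵖ V]
    (D : SkewData V) : SkewData V where
  B := -D.B
  symm := by
    intro x y
    rw [LinearMap.neg_apply, LinearMap.neg_apply, LinearMap.neg_apply, LinearMap.neg_apply, D.symm]
  comp := by
    intro a x y
    rw [LinearMap.neg_apply, LinearMap.neg_apply, LinearMap.neg_apply, LinearMap.neg_apply, D.comp]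
  A := D.A
  skew := by
    intro x y
    rw [LinearMap.neg_apply, LinearMap.neg_apply, LinearMap.neg_apply, LinearMap.neg_apply, D.skew]

lemma mem_eigs {M : Subspace n} {l : ℍ[ℝ]} :
    l ∈ eigs A M ↔ ∃ x ∈ M, x ≠ 0 ∧ A *ᵥ x = op l • x := Iff.rfl

/-- Main theorem with a spectral constraint. -/
theorem main (hφ : IsNonstandardInvolution φ) (hβ : φ β = -β) (hβ1 : ‖β‖ = 1) (hH : IsUnit H)
    (hHφ : phiT φ H = H) (hA : H * A = -(phiT φ A * H)) (N : Subspace n) (hN : Invariant A N)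
    (hNn : Neutral φ (H * A) N) (E : Set ℍ[ℝ]) (hsim : ∀ l ∈ E, ∀ a : ℍ[ℝ], a ≠ 0 → a⁻¹ * l * a ∈ E)
    (h0 : ∀ l : ℍ[ℝ], l.re = 0 → l ∈ E) (hE : ∀ l ∈ eigs A ⊤, l ∈ E ∨ -l ∈ E)
    (hNE : eigs A N ⊆ E) :
    (∃ L : Subspace n, N ≤ L ∧ Invariant A L ∧ MaxNonneg φ β (H * A) L ∧ eigs A L ⊆ E ∧
      ∀ l ∈ eigs A ⊤, l.re ≠ 0 → -l ∉ eigs A L → l ∈ eigs A L) ∧
    (∃ L : Subspace n, N ≤ L ∧ Invariant A L ∧ MaxNonpos φ β (H * A) L ∧ eigs A L ⊆ E ∧
      ∀ l ∈ eigs A ⊤, l.re ≠ 0 → -l ∉ eigs A L → l ∈ eigs A L) := by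
  let D := data hφ hβ hβ1 hHφ hA
  have hB : ∀ x y, D.B x y = (β⁻¹ * form φ (H * A) x y).re := fun x y => rfl
  have hBA : ∀ x, D.A x = A *ᵥ x := fun x => rfl
  have hself : ∀ x, β⁻¹ * form φ (H * A) x x = ((D.B x x : ℝ) : ℍ[ℝ]) :=
    self_real hφ hβ hβ1 (phiT_HA hφ hHφ hA)
  have hnn : ∀ M : Subspace n, Nonneg φ β (H * A) M ↔ ∀ x ∈ M, 0 ≤ D.B x x := by
    intro M
    constructor
    · intro h x hx
      obtain ⟨r, hr, hrx⟩ := h x hx
      rw [hB, hrx, re_coe]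
      exact hr
    · intro h x hx
      exact ⟨_, h x hx, hself x⟩
  have hnp : ∀ M : Subspace n, Nonpos φ β (H * A) M ↔ ∀ x ∈ M, 0 ≤ (negData D).B x x := by
    intro M
    constructor
    · intro h x hx
      obtain ⟨r, hr, hrx⟩ := h x hx
      change 0 ≤ -(D.B x x)
      rw [hB, hrx, re_coe]
      linarith
    · intro h x hx
      have h1 : 0 ≤ -(D.B x x) := h x hx
      exact ⟨_, by linarith, hself x⟩
  have hrad : ∀ x, (∀ y, D.B x y = 0) → D.A x = 0 := data_rad hφ hβ hβ1 hH hHφ hA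
  have hneu : ∀ x ∈ N, ∀ y ∈ N, D.B x y = 0 := by
    intro x hx y hy
    rw [hB, hNn x hx y hy, mul_zero]
    simp
  constructor
  · obtain ⟨L, h1, h2, h3, h4, h5⟩ := D.exists_max hrad E hsim h0
      (fun x hx l hxl => hE l ⟨x, trivial, hx, hxl⟩) N hN hneu
      (fun x hx hx0 l hxl => hNE ⟨x, hx, hx0, hxl⟩)
    refine ⟨L, h1, h2, ⟨(hnn L).2 h3, ?_⟩, ?_, ?_⟩
    · intro M hM hLM
      exact le_antisymm (h5 M hLM ((hnn M).1 hM)) hLM
    · rintro l ⟨x, hx, hx0, hxl⟩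
      exact h4 x hx hx0 l hxl
    · rintro l ⟨x, -, hx0, hxl⟩ hl hneg
      exact ⟨x, D.eig_mem L h2 h3 h5 hl hxl (fun y hy hy0 h => hneg ⟨y, hy, hy0, h⟩), hx0, hxl⟩
  · obtain ⟨L, h1, h2, h3, h4, h5⟩ := (negData D).exists_max
      (fun x hx => hrad x (fun y => by
        have h : -(D.B x y) = 0 := hx y
        linarith)) E hsim h0
      (fun x hx l hxl => hE l ⟨x, trivial, hx, hxl⟩) N hN
      (fun x hx y hy => by
        change -(D.B x y) = 0
        rw [hneu x hx y hy, neg_zero])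
      (fun x hx hx0 l hxl => hNE ⟨x, hx, hx0, hxl⟩)
    refine ⟨L, h1, h2, ⟨(hnp L).2 h3, ?_⟩, ?_, ?_⟩
    · intro M hM hLM
      exact le_antisymm (h5 M hLM ((hnp M).1 hM)) hLM
    · rintro l ⟨x, hx, hx0, hxl⟩
      exact h4 x hx hx0 l hxl
    · rintro l ⟨x, -, hx0, hxl⟩ hl hneg
      exact ⟨x, (negData D).eig_mem L h2 h3 h5 hl hxl (fun y hy hy0 h => hneg ⟨y, hy, hy0, h⟩),
        hx0, hxl⟩

/-- Q1 -/
theorem Q1 (hφ : IsNonstandardInvolution φ) (hβ : φ β = -β) (hβ1 : ‖β‖ = 1) (hH : IsUnit H)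
    (hHφ : phiT φ H = H) (hA : H * A = -(phiT φ A * H)) (N : Subspace n) (hN : Invariant A N)
    (hNn : Neutral φ (H * A) N) :
    (∃ L : Subspace n, N ≤ L ∧ Invariant A L ∧ MaxNonneg φ β (H * A) L) ∧
    (∃ L : Subspace n, N ≤ L ∧ Invariant A L ∧ MaxNonpos φ β (H * A) L) := by
  obtain ⟨⟨L, h1, h2, h3, -⟩, ⟨L', h1', h2', h3', -⟩⟩ := main hφ hβ hβ1 hH hHφ hA N hN hNn Set.univ
    (fun _ _ _ _ => trivial) (fun _ _ => trivial) (fun _ _ => Or.inl trivial)
    (Set.subset_univ _)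
  exact ⟨⟨L, h1, h2, h3⟩, ⟨L', h1', h2', h3'⟩⟩

lemma re_conj (l a : ℍ[ℝ]) (ha : a ≠ 0) : (a⁻¹ * l * a).re = l.re := by
  have h : (a⁻¹ * l * a).re = (a * (a⁻¹ * l)).re := by
    simp only [re_mul]
    ring
  rw [h, ← mul_assoc, mul_inv_cancel₀ ha, one_mul]

/-- a c-set contains `l` or `-l` for every eigenvalue `l` with nonzero real part -/
lemma cset_cover {S : Set ℍ[ℝ]} (hS : IsCSet A S) {l : ℍ[ℝ]} (hl : l ∈ eigs A ⊤) (hre : l.re ≠ 0) :
    l ∈ S ∨ -l ∈ S := by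
  by_contra hcon
  push Not at hcon
  obtain ⟨h1, h2⟩ := hcon
  have hback : ∀ (m a : ℍ[ℝ]), a ≠ 0 → a⁻¹ * m * a ∈ S → m ∈ S := by
    intro m a ha h
    have := hS.1.similar _ h a⁻¹ (inv_ne_zero ha)
    rwa [inv_inv, ← mul_assoc, ← mul_assoc, mul_inv_cancel₀ ha, one_mul, mul_assoc,
      mul_inv_cancel₀ ha, mul_one] at this
  let S' : Set ℍ[ℝ] := S ∪ {m | ∃ a : ℍ[ℝ], a ≠ 0 ∧ m = a⁻¹ * l * a}
  have hS' : PreCSet A S' := by
    refine ⟨?_, ?_, ?_, ?_⟩
    · rintro m (hm | ⟨a, ha, rfl⟩)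
      · exact hS.1.sub hm
      · obtain ⟨x, -, hx0, hxl⟩ := mem_eigs.1 hl
        refine mem_eigs.2 ⟨op a • x, trivial, ?_, ?_⟩
        · intro h
          apply hx0
          have h3 : op a⁻¹ • (op a • x) = 0 := by rw [h, smul_zero]
          rwa [smul_smul, ← op_mul, mul_inv_cancel₀ ha, op_one, one_smul] at h3
        · rw [mulVec_smul, hxl, smul_smul, smul_smul, ← op_mul, ← op_mul, ← mul_assoc, ← mul_assoc,
            mul_inv_cancel₀ ha, one_mul]
    · rintro m (hm | ⟨a, ha, rfl⟩)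
      · exact hS.1.re_ne m hm
      · rw [re_conj l a ha]
        exact hre
    · rintro m (hm | ⟨a, ha, rfl⟩) b hb
      · exact Or.inl (hS.1.similar m hm b hb)
      · refine Or.inr ⟨a * b, mul_ne_zero ha hb, ?_⟩
        rw [_root_.mul_inv_rev]
        noncomm_ring
    · rintro m (hm | ⟨a, ha, rfl⟩) (hm' | ⟨b, hb, hm'⟩)
      · exact hS.1.neg_notMem m hm hm'
      · -- `m ∈ S`, `-m` similar to `l`
        apply h2
        apply hback (-l) b hb
        have : b⁻¹ * -l * b = m := by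
          rw [mul_neg, neg_mul, ← hm', neg_neg]
        rwa [this]
      · apply h2
        apply hback (-l) a ha
        rw [mul_neg, neg_mul]
        exact hm'
      · have e1 := re_conj l a ha
        have e2 := re_conj l b hb
        rw [← hm', re_neg, e1] at e2
        apply hre
        linarith
  have heq := hS.2 S' hS' (fun m hm => Or.inl hm)
  apply h1
  rw [← heq]
  exact Or.inr ⟨1, one_ne_zero, by simp⟩

/-- Q2 -/
theorem Q2 (hφ : IsNonstandardInvolution φ) (hβ : φ β = -β) (hβ1 : ‖β‖ = 1) (hH : IsUnit H)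
    (hHφ : phiT φ H = H) (hA : H * A = -(phiT φ A * H)) (N : Subspace n) (hN : Invariant A N)
    (hNn : Neutral φ (H * A) N) (S : Set ℍ[ℝ]) (hS : IsCSet A S)
    (hNS : {l ∈ eigs A N | l.re ≠ 0} ⊆ S) :
    (∃ L : Subspace n, N ≤ L ∧ Invariant A L ∧ MaxNonneg φ β (H * A) L ∧
      {l ∈ eigs A L | l.re ≠ 0} = S) ∧
    (∃ L : Subspace n, N ≤ L ∧ Invariant A L ∧ MaxNonpos φ β (H * A) L ∧
      {l ∈ eigs A L | l.re ≠ 0} = S) := by
  let E : Set ℍ[ℝ] := S ∪ {l | l.re = 0}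
  have hsim : ∀ l ∈ E, ∀ a : ℍ[ℝ], a ≠ 0 → a⁻¹ * l * a ∈ E := by
    rintro l (hl | hl) a ha
    · exact Or.inl (hS.1.similar l hl a ha)
    · refine Or.inr ?_
      change (a⁻¹ * l * a).re = 0
      rw [re_conj l a ha]
      exact hl
  have hE : ∀ l ∈ eigs A ⊤, l ∈ E ∨ -l ∈ E := by
    intro l hl
    by_cases hre : l.re = 0
    · exact Or.inl (Or.inr hre)
    · rcases cset_cover hS hl hre with h | h
      · exact Or.inl (Or.inl h)
      · exact Or.inr (Or.inl h)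
  have hNE : eigs A N ⊆ E := by
    intro l hl
    by_cases hre : l.re = 0
    · exact Or.inr hre
    · exact Or.inl (hNS ⟨hl, hre⟩)
  have key : ∀ L : Subspace n, eigs A L ⊆ E →
      (∀ l ∈ eigs A ⊤, l.re ≠ 0 → -l ∉ eigs A L → l ∈ eigs A L) →
      {l ∈ eigs A L | l.re ≠ 0} = S := by
    intro L hL1 hL2
    ext l
    constructor
    · rintro ⟨hl, hre⟩
      rcases hL1 hl with h | h
      · exact h
      · exact absurd h hre
    · intro hl
      have hre := hS.1.re_ne l hl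
      refine ⟨hL2 l (hS.1.sub hl) hre ?_, hre⟩
      intro hneg
      rcases hL1 hneg with h | h
      · exact hS.1.neg_notMem l hl h
      · change (-l).re = 0 at h
        rw [re_neg] at h
        apply hre
        linarith
  obtain ⟨⟨L, h1, h2, h3, h4, h5⟩, ⟨L', h1', h2', h3', h4', h5'⟩⟩ :=
    main hφ hβ hβ1 hH hHφ hA N hN hNn E hsim (fun l hl => Or.inr hl) hE hNE
  exact ⟨⟨L, h1, h2, h3, key L h4 h5⟩, ⟨L', h1', h2', h3', key L' h4' h5'⟩⟩

end Data

end Pool.Agent.Lib.H75.QuatMat
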